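import Mathlib
import Pool.Agent.H.MP_d23f22_an.A

set_option autoImplicit false

open Set Filter Topology
open scoped ContDiff

namespace Pool.Agent.Results.MP_d23f22_an.No

/-- The lift to the plane of the map `F_{V,l}`; points are `(θ, r)`. -/
def F (V : ℝ → ℝ) (l : ℝ) (p : ℝ × ℝ) : ℝ × ℝ := (p.1 + (p.2 + l * V p.1), p.2 + l * V p.1)

/-- Every two-sided orbit through a point of `Γ` has rotation number `ρ`. -/
def Rot (V : ℝ → ℝ) (l : ℝ) (Γ : Set (ℝ × ℝ)) (ρ : ℝ) : Prop :=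
  ∀ o : ℤ → ℝ × ℝ, o 0 ∈ Γ → (∀ n, o (n + 1) = F V l (o n)) →
    Tendsto (fun n : ℤ => ((o n).1 - (o 0).1) / n) atTop (𝓝 ρ) ∧
      Tendsto (fun n : ℤ => ((o n).1 - (o 0).1) / n) atBot (𝓝 ρ)

/-- There is an invariant circle of rotation number `ρ` (`γ` is the lift of a homotopically
non-trivial embedded circle of the cylinder). -/
def Circle (V : ℝ → ℝ) (l ρ : ℝ) : Prop :=
  ∃ γ : ℝ → ℝ × ℝ, Continuous γ ∧ Function.Injective γ ∧ (∀ t, γ (t + 1) = γ t + (1, 0)) ∧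
    F V l '' range γ = range γ ∧ Rot V l (range γ) ρ

/-- The graph of `R`. -/
def graph (R : ℝ → ℝ) : Set (ℝ × ℝ) := {p | p.2 = R p.1}

/-- There is an analytic invariant circle of rotation number `ρ`. -/
def AnCircle (V : ℝ → ℝ) (l ρ : ℝ) : Prop :=
  ∃ R : ℝ → ℝ, AnalyticOnNhd ℝ R univ ∧ Function.Periodic R 1 ∧ F V l '' graph R = graph R ∧
    Rot V l (graph R) ρ

/-- Admissible `V`. -/
def Adm (V : ℝ → ℝ) : Prop :=
  AnalyticOnNhd ℝ V univ ∧ Function.Periodic V 1 ∧ V ≠ 0 ∧ ∫ θ in (0 : ℝ)..1, V θ = 0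

/-- Diophantine numbers. -/
def Dioph (ρ : ℝ) : Prop :=
  ∃ C > (0 : ℝ), ∃ d > (2 : ℝ), ∀ m n : ℕ, 0 < m → 0 < n → C / (n : ℝ) ^ d < |ρ - m / n|

/-- `Λ` is a threshold in the sense of Q1. -/
def Threshold (V : ℝ → ℝ) (ρ Λ : ℝ) : Prop :=
  (∀ l, Λ < |l| → ¬ Circle V l ρ) ∧ ∀ l, |l| < Λ → AnCircle V l ρ

lemma circ {V : ℝ → ℝ} {l ρ : ℝ} (h : AnCircle V l ρ) : Circle V l ρ := by
  obtain ⟨R, a, b, c, d⟩ := h
  have : range (fun t => (t, R t)) = graph R :=
    Set.ext fun p => ⟨fun ⟨t, h⟩ => h ▸ rfl, fun h => ⟨p.1, Prod.ext rfl (Eq.symm h)⟩⟩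
  exact ⟨fun t => (t, R t), continuous_id.prodMk (continuousOn_univ.1 a.continuousOn),
    fun s t h => congrArg Prod.fst h, fun t => by simp [b t], this ▸ c, this ▸ d⟩

lemma ex {ρ : ℝ} (hρ : ∀ k : ℤ, ρ ≠ k) : ∃ V, Adm V ∧ AnCircle V 1 ρ ∧
    ∀ R : ℝ → ℝ, Differentiable ℝ R → Function.Periodic R 1 →
      F V (7 / 10) '' graph R ≠ graph R := by
  obtain ⟨h, k, ch, ck, k1, k2, ph, pk, oh, bh, no⟩ := Pool.Agent.H.MP_d23f22_an.main hρ
  set V : ℝ → ℝ := fun x => h (k x + ρ) + h (k x - ρ) - 2 * x with hV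
  have cV : ContDiff ℝ ω V := by fun_prop
  have pV : Function.Periodic V 1 := fun x => by
    simp only [hV, pk]
    rw [add_right_comm, ph, add_sub_right_comm (k x), ph]
    ring
  have ok : ∀ x, k (-x) = -k x := fun x => by rw [← k1 (-k x), oh, k2]
  have oV : ∀ x, V (-x) = -V x := fun x => by
    simp only [hV, ok]
    rw [show -k x + ρ = -(k x - ρ) by ring, show -k x - ρ = -(k x + ρ) by ring, oh, oh]
    ring
  have nog : ∀ R : ℝ → ℝ, Differentiable ℝ R → Function.Periodic R 1 →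
      F V (7 / 10) '' graph R ≠ graph R := fun R dR pR e => by
    have dV := cV.differentiable (by simp)
    have e1 : ∀ x, x + (R x + 7 / 10 * V x) - R (x + (R x + 7 / 10 * V x)) = x := fun x => by
      have : R x + 7 / 10 * V x = R (x + (R x + 7 / 10 * V x)) := e.le ⟨(x, R x), rfl, rfl⟩
      linarith
    refine no (fun x => x + (R x + 7 / 10 * V x)) (fun x => x - R x) (by fun_prop) (by fun_prop) e1
      (fun x => ?_) (fun x => by simp only [pR x, pV x]; ring) (fun x => by simp only [pR x]; ring)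
      fun x => by simp only [hV]; ring
    obtain ⟨⟨t, r⟩, ht, hx⟩ := e.ge (show (x, R x) ∈ graph R from rfl)
    obtain rfl : r = R t := ht
    obtain rfl : t + (R t + 7 / 10 * V t) = x := congrArg Prod.fst hx
    simp only [e1]
  refine ⟨V, ⟨contDiff_omega_iff_analyticOnNhd.1 cV, pV, fun h0 => ?_, ?_⟩,
    ⟨fun x => x - h (k x - ρ), contDiff_omega_iff_analyticOnNhd.1 (by fun_prop), fun x => ?_, ?_⟩,
    nog⟩
  · refine nog 0 (by fun_prop) (fun _ => rfl) ?_
    rw [h0]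
    ext ⟨x, r⟩
    simp [F, graph, eq_comm]
  · have a := intervalIntegral.integral_comp_neg (a := 0) (b := 1) V
    have b := pV.intervalIntegral_add_eq (-1) 0
    simp only [oV, intervalIntegral.integral_neg, neg_zero, neg_add_cancel, zero_add] at a b
    linarith
  · simp only [pk]
    rw [add_sub_right_comm (k x), ph]
    ring
  · have st : ∀ x, F V 1 (h x, h x - h (x - ρ)) = (h (x + ρ), h (x + ρ) - h (x + ρ - ρ)) :=
      fun x => by
        simp only [F, hV, k1, add_sub_cancel_right]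
        ext <;> simp only <;> ring
    have gr : ∀ p, p ∈ graph (fun x => x - h (k x - ρ)) ↔ ∃ x, p = (h x, h x - h (x - ρ)) :=
      fun p => ⟨fun hp => ⟨k p.1, Prod.ext (k2 _).symm (by rw [k2]; exact hp)⟩,
        fun ⟨x, hx⟩ => by simp [graph, hx, k1]⟩
    refine ⟨Set.ext fun p => ⟨?_, fun hp => ?_⟩, fun o h0 ho => ?_⟩
    · rintro ⟨q, hq, rfl⟩
      obtain ⟨x, rfl⟩ := (gr _).1 hq
      exact (gr _).2 ⟨_, st x⟩
    · obtain ⟨x, rfl⟩ := (gr _).1 hp
      exact ⟨_, (gr _).2 ⟨x - ρ, rfl⟩, by rw [st, sub_add_cancel]⟩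
    · obtain ⟨x, hx⟩ := (gr _).1 h0
      have inj : Function.Injective (F V 1) := fun p q e => by
        have a := congrArg Prod.fst e
        have b := congrArg Prod.snd e
        simp only [F] at a b
        have c : p.1 = q.1 := by linarith
        rw [c] at b
        exact Prod.ext c (by linarith)
      have f : ∀ n : ℤ, o n = (h (x + n * ρ), h (x + n * ρ) - h (x + n * ρ - ρ)) := fun n => by
        induction n using Int.induction_on with
        | zero => simpa using hx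
        | succ n ih =>
          rw [ho, ih, st]
          push_cast
          ring_nf
        | pred n ih =>
          refine inj ?_
          rw [← ho, sub_add_cancel, ih, st]
          push_cast
          ring_nf
      have key : ∀ l : Filter ℤ, Tendsto (fun n : ℤ => |(n : ℝ)|) l atTop →
          Tendsto (fun n : ℤ => ((o n).1 - (o 0).1) / n) l (𝓝 ρ) := fun l hl => by
        refine tendsto_iff_norm_sub_tendsto_zero.2 (squeeze_zero' (.of_forall fun _ => norm_nonneg _)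
          ((hl.eventually_gt_atTop 0).mono fun n hn => ?_) (hl.const_div_atTop 2))
        have := abs_pos.1 hn
        rw [Real.norm_eq_abs, div_sub' this, abs_div, f, hx]
        gcongr
        have a := abs_le.1 (bh (x + n * ρ))
        have b := abs_le.1 (bh x)
        exact abs_le.2 ⟨by linarith [a.1, b.2], by linarith [a.2, b.1]⟩
      exact ⟨key _ (tendsto_abs_atTop_atTop.comp tendsto_intCast_atTop_atTop),
        key _ (tendsto_abs_atBot_atTop.comp (tendsto_intCast_atBot_iff.2 tendsto_id))⟩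

lemma gold : Dioph ((√5 - 1) / 2) ∧ ∀ k : ℤ, (√5 - 1) / 2 ≠ k := by
  have ir : Irrational √5 := by simpa using Nat.prime_five.irrational_sqrt
  have s : √5 ^ 2 = 5 := Real.sq_sqrt (by norm_num)
  have s0 : 0 ≤ √5 := Real.sqrt_nonneg _
  have s3 : √5 ≤ 3 := by nlinarith
  refine ⟨⟨1 / 8, by norm_num, 3, by norm_num, fun m n hm hn => ?_⟩, fun k h =>
    ir.ne_int (2 * k + 1) (by push_cast; linarith)⟩
  have n1 : (1 : ℝ) ≤ n := by exact_mod_cast hn
  have m0 : (0 : ℝ) < m / n := by positivity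
  have e : ((m : ℝ) ^ 2 + m * n - n ^ 2) / n ^ 2 =
      (m / n - (√5 - 1) / 2) * (m / n + (√5 + 1) / 2) := by
    field_simp
    linear_combination (n : ℝ) ^ 2 * s
  have ne : (m : ℤ) ^ 2 + m * n - n ^ 2 ≠ 0 := fun h => by
    have h' : (m : ℝ) ^ 2 + m * n - n ^ 2 = 0 := by exact_mod_cast h
    rw [h', zero_div, eq_comm, mul_eq_zero] at e
    refine ir ⟨2 * m / n + 1, ?_⟩
    push_cast
    rw [mul_div_assoc]
    linarith [e.resolve_right (by positivity)]
  have o : (1 : ℝ) ≤ |(m : ℝ) ^ 2 + m * n - n ^ 2| := by exact_mod_cast Int.one_le_abs ne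
  have q : 1 / (n : ℝ) ^ 2 ≤ |(√5 - 1) / 2 - m / n| * (m / n + (√5 + 1) / 2) := by
    rw [abs_sub_comm, ← abs_of_pos (by positivity : 0 < m / n + (√5 + 1) / 2), ← abs_mul, ← e,
      abs_div, abs_of_pos (by positivity : (0 : ℝ) < n ^ 2)]
    gcongr
  have r : 1 / 8 / (n : ℝ) ^ (3 : ℝ) ≤ 1 / 8 * (1 / (n : ℝ) ^ 2) := by
    rw [Real.rpow_ofNat, ← mul_div_assoc, mul_one]
    gcongr
    norm_num
  have t : 1 / (n : ℝ) ^ 2 ≤ 1 := by
    rw [div_le_one (by positivity)]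
    nlinarith
  have u : 0 < 1 / (n : ℝ) ^ 2 := by positivity
  by_contra c
  have c' := not_lt.1 c
  have := (abs_le.1 c').1
  nlinarith [abs_nonneg ((√5 - 1) / 2 - m / n)]

theorem result :
    (∀ ρ : ℝ, (∀ k : ℤ, ρ ≠ k) → ∃ V, Adm V ∧ AnCircle V 1 ρ ∧
      (∀ R : ℝ → ℝ, Differentiable ℝ R → Function.Periodic R 1 →
        F V (7 / 10) '' graph R ≠ graph R) ∧ ¬ ∃ Λ ≥ 0, Threshold V ρ Λ) ∧
    (Dioph ((√5 - 1) / 2) ∧ ∃ V, Adm V ∧ ¬ ∃ Λ ≥ 0, Threshold V ((√5 - 1) / 2) Λ) ∧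
    ¬ ∀ V ρ, Adm V → Dioph ρ → ∃ Λ ≥ 0, Threshold V ρ Λ := by
  have A : ∀ ρ : ℝ, (∀ k : ℤ, ρ ≠ k) → ∃ V, Adm V ∧ AnCircle V 1 ρ ∧
      (∀ R : ℝ → ℝ, Differentiable ℝ R → Function.Periodic R 1 →
        F V (7 / 10) '' graph R ≠ graph R) ∧ ¬ ∃ Λ ≥ 0, Threshold V ρ Λ := fun ρ hρ => by
    obtain ⟨V, a, b, c⟩ := ex hρ
    refine ⟨V, a, b, c, fun ⟨Λ, _, d, e⟩ => ?_⟩
    have : 1 ≤ Λ := not_lt.1 fun h => d 1 (by rwa [abs_one]) (circ b)
    obtain ⟨R, r1, r2, r3, -⟩ := e (7 / 10) (by rw [abs_of_pos] <;> linarith)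
    exact c R (fun x => (r1 x trivial).differentiableAt) r2 r3
  obtain ⟨V, a, -, -, b⟩ := A _ gold.2
  exact ⟨A, ⟨gold.1, V, a, b⟩, fun h => b (h V _ a gold.1)⟩

end Pool.Agent.Results.MP_d23f22_an.No
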